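import Mathlib
import Pool.Agent.Q177.FreeVecB

/-!
# MP_24cde2_gt: the `k`-property of the levels `sp₂(X)` and `sp₄(X)`
-/

set_option autoImplicit false

universe u

namespace Pool.Agent.Results.MP_24cde2_gt.AllLevels

open Set Topology

/-- The topology of the free topological vector space `V(X)`, whose underlying vector space is the
space `X →₀ ℝ` of finitely supported functions (formal linear combinations of points of `X`): the
finest vector space topology for which the map `x ↦ x` of `X` into it is continuous. -/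
@[reducible]
def freeVectorTopology (X : Type u) [τ : TopologicalSpace X] : TopologicalSpace (X →₀ ℝ) :=
  sInf {t | @IsTopologicalAddGroup (X →₀ ℝ) t _ ∧ @ContinuousSMul ℝ (X →₀ ℝ) _ _ t ∧
    @Continuous X (X →₀ ℝ) τ t (fun x : X => Finsupp.single x (1 : ℝ))}

/-- The set `spₙ(X)` of all `λ₁x₁ + ⋯ + λₙxₙ` with `λⱼ ∈ [-n, n]` and `xⱼ ∈ X`. -/
def Sp (X : Type u) (n : ℕ) : Type u :=
  {v : X →₀ ℝ // ∃ (c : Fin n → ℝ) (x : Fin n → X), (∀ j, c j ∈ Icc (-(n : ℝ)) n) ∧
    v = ∑ j, Finsupp.single (x j) (c j)}

/-- `spₙ(X)` carries the subspace topology of `V(X)`. -/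
instance (X : Type u) [TopologicalSpace X] (n : ℕ) : TopologicalSpace (Sp X n) :=
  (freeVectorTopology X).induced Subtype.val

/-- `Z` is a `k`-space: a set `C` is closed whenever `C ∩ K` is closed in `K` for every compact
set `K`. -/
def IsKSpace (Z : Type u) [TopologicalSpace Z] : Prop :=
  ∀ C : Set Z, (∀ K : Set Z, IsCompact K → IsClosed ((↑) ⁻¹' C : Set K)) → IsClosed C

/-- If `X` is metrizable and `sp₂(X)` is a `k`-space, then `spₙ(X)` is a `k`-space for every `n`,
in particular `sp₄(X)` is a `k`-space. -/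
theorem result (X : Type u) [TopologicalSpace X] [TopologicalSpace.MetrizableSpace X]
    (hX : IsKSpace (Sp X 2)) (n : ℕ) : IsKSpace (Sp X n) :=
  @Q177.FreeVec.isKSpace_all X _ _ (freeVectorTopology X) (Q177.FreeVec.isFreeVec_vecTop X) 2
    le_rfl hX n

end Pool.Agent.Results.MP_24cde2_gt.AllLevels
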